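import Mathlib
import Pool.Agent.Q212.ConstRate

/-!
# The finite subsets of the positive integers do not support a constant rate distribution
-/

namespace Pool.Agent.Results.MP_e3a9f0_pr.NoConstantRate

/-- The upper probability function `F(x) = ∑_{y ⊇ x} f(y)` of a probability density function `f`
on the finite subsets of `{1, 2, 3, ...}`. -/
noncomputable def upperProb (f : Finset ℕ+ → ℝ) (x : Finset ℕ+) : ℝ :=
  ∑' y : {y : Finset ℕ+ // x ⊆ y}, f y

/-- The poset of finite subsets of the positive integers supports no constant rate distribution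
(with full support); in fact the only probability distribution `f` on it (full support or not) with
`f = α F` for a constant `α` is the point mass at `∅`, with `α = 1`. -/
theorem result :
    (¬ ∃ (f : Finset ℕ+ → ℝ) (α : ℝ),
      (∀ x, 0 < f x) ∧ HasSum f 1 ∧ ∀ x, f x = α * upperProb f x) ∧
    (∀ (f : Finset ℕ+ → ℝ) (α : ℝ), (∀ x, 0 ≤ f x) → HasSum f 1 →
      (∀ x, f x = α * upperProb f x) → α = 1 ∧ f ∅ = 1 ∧ ∀ x, x ≠ ∅ → f x = 0) := by
  have key : ∀ (f : Finset ℕ+ → ℝ) (α : ℝ), (∀ x, 0 ≤ f x) → HasSum f 1 →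
      (∀ x, f x = α * upperProb f x) → α = 1 ∧ f ∅ = 1 ∧ ∀ x, x ≠ ∅ → f x = 0 :=
    fun f α h1 h2 h3 => Pool.Agent.Q212.ConstRate.constant_rate_real f α h1 h2 h3
  refine ⟨?_, key⟩
  rintro ⟨f, α, h1, h2, h3⟩
  have h4 := (key f α (fun x => (h1 x).le) h2 h3).2.2 {1} (Finset.singleton_ne_empty 1)
  have h5 := h1 {1}
  linarith

end Pool.Agent.Results.MP_e3a9f0_pr.NoConstantRate
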